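import Pool.Agent.QEP.Stmts

namespace Pool.Agent.QEP.H92

open scoped ComplexConjugate

/-- The time index of the parameter `s`. -/
noncomputable def idx (M : ℕ) (s : ℝ) : ℕ := ⌊(9 : ℝ) ^ M * s + 9 ^ (2 * M + 1)⌋₊

/-- The level of the height `r`. -/
noncomputable def lev (M : ℕ) (r : ℝ) : ℕ := Nat.log 9 ⌊(9 : ℝ) ^ M * r⌋₊

lemma idx_bounds (M : ℕ) (s : ℝ) (hs : |s| ≤ 9 ^ M) :
    (idx M s : ℝ) ≤ 9 ^ M * s + 9 ^ (2 * M + 1) ∧ 9 ^ M * s + 9 ^ (2 * M + 1) < idx M s + 1 ∧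
      idx M s < 9 ^ (2 * M + 6) := by
  have h9 : (0 : ℝ) < 9 ^ M := by positivity
  have e2 : (9 : ℝ) ^ (2 * M) = 9 ^ M * 9 ^ M := by rw [two_mul, pow_add]
  obtain ⟨h1, h2⟩ := abs_le.mp hs
  have h3 : -(9 ^ M * 9 ^ M : ℝ) ≤ 9 ^ M * s := by nlinarith
  have h4 : (9 ^ M : ℝ) * s ≤ 9 ^ M * 9 ^ M := by nlinarith
  have h5 : (0 : ℝ) < 9 ^ M * 9 ^ M := by positivity
  have h0 : (0 : ℝ) ≤ 9 ^ M * s + 9 ^ (2 * M + 1) := by
    rw [pow_succ, e2]; nlinarith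
  have hA : (idx M s : ℝ) ≤ 9 ^ M * s + 9 ^ (2 * M + 1) := Nat.floor_le h0
  refine ⟨hA, Nat.lt_floor_add_one _, ?_⟩
  have : (idx M s : ℝ) < ((9 ^ (2 * M + 6) : ℕ) : ℝ) := by
    refine lt_of_le_of_lt hA ?_
    push_cast
    rw [pow_succ, pow_add _ (2 * M) 6, e2]
    nlinarith
  exact_mod_cast this

lemma lev_bounds (M : ℕ) (r : ℝ) (h1 : (9 ^ M : ℝ)⁻¹ ≤ r) (h2 : r ≤ 9 ^ M) :
    (9 : ℝ) ^ lev M r ≤ 9 ^ M * r ∧ 9 ^ M * r < 9 ^ (lev M r + 1) ∧ lev M r ≤ 2 * M ∧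
      (1 : ℝ) ≤ 9 ^ M * r := by
  have h9 : (0 : ℝ) < 9 ^ M := by positivity
  have hy1 : (1 : ℝ) ≤ 9 ^ M * r := by
    have := mul_le_mul_of_nonneg_left h1 h9.le
    rwa [mul_inv_cancel₀ h9.ne'] at this
  have hfl : 1 ≤ ⌊(9 : ℝ) ^ M * r⌋₊ := by
    rw [Nat.one_le_floor_iff]; exact hy1
  have hle : (⌊(9 : ℝ) ^ M * r⌋₊ : ℝ) ≤ 9 ^ M * r := Nat.floor_le (by linarith)
  have hlt : (9 : ℝ) ^ M * r < ⌊(9 : ℝ) ^ M * r⌋₊ + 1 := Nat.lt_floor_add_one _
  have a1 : 9 ^ lev M r ≤ ⌊(9 : ℝ) ^ M * r⌋₊ := Nat.pow_log_le_self 9 (by omega)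
  have a2 : ⌊(9 : ℝ) ^ M * r⌋₊ < 9 ^ (lev M r + 1) := Nat.lt_pow_succ_log_self (by norm_num) _
  have a1' : ((9 ^ lev M r : ℕ) : ℝ) ≤ (⌊(9 : ℝ) ^ M * r⌋₊ : ℝ) := by exact_mod_cast a1
  have a2' : (⌊(9 : ℝ) ^ M * r⌋₊ : ℝ) + 1 ≤ ((9 ^ (lev M r + 1) : ℕ) : ℝ) := by exact_mod_cast a2
  push_cast at a1' a2'
  refine ⟨a1'.trans hle, lt_of_lt_of_le hlt a2', ?_, hy1⟩
  have h5 : (9 : ℝ) ^ lev M r ≤ 9 ^ (2 * M) := by
    refine (a1'.trans hle).trans ?_
    rw [two_mul, pow_add]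
    exact mul_le_mul_of_nonneg_left h2 h9.le
  exact (pow_le_pow_iff_right₀ (by norm_num : (1 : ℝ) < 9)).mp h5

lemma idx_diff (M : ℕ) (s s' : ℝ) (hs : |s| ≤ 9 ^ M) (hs' : |s'| ≤ 9 ^ M) :
    |(idx M s : ℝ) - idx M s'| ≤ 9 ^ M * |s - s'| + 1 ∧
      9 ^ M * |s - s'| - 1 ≤ |(idx M s : ℝ) - idx M s'| := by
  obtain ⟨a1, a2, -⟩ := idx_bounds M s hs
  obtain ⟨b1, b2, -⟩ := idx_bounds M s' hs'
  have h9 : (0 : ℝ) < 9 ^ M := by positivity
  have e : (9 : ℝ) ^ M * |s - s'| = |9 ^ M * s - 9 ^ M * s'| := by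
    rw [← mul_sub, abs_mul, abs_of_pos h9]
  rw [e]
  constructor
  · rw [abs_le]
    constructor
    · have := neg_abs_le (9 ^ M * s - 9 ^ M * s')
      linarith
    · have := le_abs_self (9 ^ M * s - 9 ^ M * s')
      linarith
  · rw [sub_le_iff_le_add, abs_le]
    constructor
    · have := neg_abs_le ((idx M s : ℝ) - idx M s')
      linarith
    · have := le_abs_self ((idx M s : ℝ) - idx M s')
      linarith

/-- A power of nine just above a natural number distance. -/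
lemma exists_pow (i j : ℕ) (R : ℝ) (hR : 1 ≤ R) (h : |(i : ℝ) - j| ≤ R) :
    ∃ k : ℕ, |(i : ℤ) - j| ≤ 9 ^ k ∧ (9 : ℝ) ^ k ≤ 9 * R := by
  obtain ⟨n, hn⟩ := exists_nat_pow_near hR (by norm_num : (1 : ℝ) < 9)
  refine ⟨n + 1, ?_, ?_⟩
  · have : |(i : ℝ) - j| ≤ 9 ^ (n + 1) := h.trans hn.2.le
    exact_mod_cast this
  · rw [pow_succ]; linarith [hn.1]


/-- The horizontal part. -/
noncomputable def hh (M : ℕ) (s : ℝ) : ℂ :=
  ⟨((cx (idx M s) : ℝ) - cx (9 ^ (2 * M + 1))) / 3 ^ M,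
    ((cy (idx M s) : ℝ) - cy (9 ^ (2 * M + 1))) / 3 ^ M⟩

/-- The vertical part. -/
noncomputable def TT (M : ℕ) (s : ℝ) : ℝ := -2 * (BB (9 ^ (2 * M + 1)) (idx M s) : ℝ) / 9 ^ M

/-- The flat factor. -/
noncomputable def gf (M : ℕ) (s r : ℝ) : ℂ :=
  ⟨gg X (2 * M + 6) (lev M r) (idx M s) - gg X (2 * M + 6) M (9 ^ (2 * M + 1)),
    gg Y (2 * M + 6) (lev M r) (idx M s) - gg Y (2 * M + 6) M (9 ^ (2 * M + 1))⟩

lemma idx_zero (M : ℕ) : idx M 0 = 9 ^ (2 * M + 1) := by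
  unfold idx
  have : (9 : ℝ) ^ M * 0 + 9 ^ (2 * M + 1) = ((9 ^ (2 * M + 1) : ℕ) : ℝ) := by push_cast; ring
  rw [this, Nat.floor_natCast]

lemma lev_one (M : ℕ) : lev M 1 = M := by
  unfold lev
  have : (9 : ℝ) ^ M * 1 = ((9 ^ M : ℕ) : ℝ) := by push_cast; ring
  rw [this, Nat.floor_natCast, Nat.log_pow (by norm_num)]

lemma hh_zero (M : ℕ) : hh M 0 = 0 := by
  apply Complex.ext
  · simp [hh, idx_zero]
  · simp [hh, idx_zero]

lemma TT_zero (M : ℕ) : TT M 0 = 0 := by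
  have : BB (9 ^ (2 * M + 1)) (9 ^ (2 * M + 1)) = 0 := by unfold BB; ring
  simp [TT, idx_zero, this]

lemma gf_zero (M : ℕ) : gf M 0 1 = 0 := by
  apply Complex.ext
  · simp [gf, idx_zero, lev_one]
  · simp [gf, idx_zero, lev_one]

lemma hh_sub (M : ℕ) (s s' : ℝ) : ‖hh M s - hh M s'‖ ^ 2 =
    (((cx (idx M s) : ℝ) - cx (idx M s')) ^ 2 + ((cy (idx M s) : ℝ) - cy (idx M s')) ^ 2) / 9 ^ M := by
  rw [Complex.sq_norm, Complex.normSq_apply]
  simp only [hh, Complex.sub_re, Complex.sub_im]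
  have h : (9 : ℝ) ^ M = 3 ^ M * 3 ^ M := by rw [← mul_pow]; norm_num
  have h3 : (3 : ℝ) ^ M ≠ 0 := by positivity
  rw [h]
  field_simp
  ring

lemma TT_sub (M : ℕ) (s s' : ℝ) : TT M s - TT M s' + 2 * (hh M s * conj (hh M s')).im =
    2 * (BB (idx M s) (idx M s') : ℝ) / 9 ^ M := by
  have h : (9 : ℝ) ^ M = 3 ^ M * 3 ^ M := by rw [← mul_pow]; norm_num
  have h3 : (3 : ℝ) ^ M ≠ 0 := by positivity
  simp only [hh, TT, BB, Complex.mul_im, Complex.conj_re, Complex.conj_im]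
  push_cast
  rw [h]
  field_simp
  ring

lemma log_nine_ge : (2 : ℝ) ≤ Real.log 9 := by
  rw [Real.le_log_iff_exp_le (by norm_num)]
  have := Real.exp_one_lt_d9
  have e : Real.exp 2 = Real.exp 1 ^ 2 := by rw [← Real.exp_nat_mul]; norm_num
  rw [e]
  have h0 := Real.exp_pos 1
  nlinarith

lemma norm_le_re_im (z : ℂ) : ‖z‖ ≤ |z.re| + |z.im| := Complex.norm_le_abs_re_add_abs_im z

/-- First two properties. -/
lemma p12 (hHOL : HOLStmt) (M : ℕ) (s s' r : ℝ) (hs : |s| ≤ 9 ^ M) (hs' : |s'| ≤ 9 ^ M)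
    (h1 : (9 ^ M : ℝ)⁻¹ ≤ r) (h2 : r ≤ 9 ^ M) :
    ‖hh M s - hh M s'‖ ^ 2 ≤ 72 * (|s - s'| + r) ∧
      |TT M s - TT M s' + 2 * (hh M s * conj (hh M s')).im| ≤ 540 * (|s - s'| + r) := by
  have h9 : (0 : ℝ) < 9 ^ M := by positivity
  obtain ⟨-, -, -, hy⟩ := lev_bounds M r h1 h2
  obtain ⟨d1, -⟩ := idx_diff M s s' hs hs'
  set i := idx M s with hi
  set j := idx M s' with hj
  have hR : |(i : ℝ) - j| ≤ 9 ^ M * (|s - s'| + r) := by linarith
  have hR1 : (1 : ℝ) ≤ 9 ^ M * (|s - s'| + r) := by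
    have := mul_nonneg h9.le (abs_nonneg (s - s'))
    linarith
  obtain ⟨k, k1, k2⟩ := exists_pow i j _ hR1 hR
  obtain ⟨q1, q2, q3⟩ := hHOL k i j k1
  have q1' : |(cx i : ℝ) - cx j| ≤ 2 * 3 ^ k := by exact_mod_cast q1
  have q2' : |(cy i : ℝ) - cy j| ≤ 2 * 3 ^ k := by exact_mod_cast q2
  have q3' : |(BB i j : ℝ)| ≤ 30 * 9 ^ k := by exact_mod_cast q3
  have e9 : (9 : ℝ) ^ k = 3 ^ k * 3 ^ k := by rw [← mul_pow]; norm_num
  have s1 : ((cx i : ℝ) - cx j) ^ 2 ≤ 4 * 9 ^ k := by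
    rw [← sq_abs, e9]; nlinarith [abs_nonneg ((cx i : ℝ) - cx j)]
  have s2 : ((cy i : ℝ) - cy j) ^ 2 ≤ 4 * 9 ^ k := by
    rw [← sq_abs, e9]; nlinarith [abs_nonneg ((cy i : ℝ) - cy j)]
  constructor
  · rw [hh_sub, ← hi, ← hj, div_le_iff₀ h9]
    nlinarith
  · rw [TT_sub, ← hi, ← hj, abs_div, abs_mul, abs_of_pos (by norm_num : (0 : ℝ) < 2),
      abs_of_pos h9, div_le_iff₀ h9]
    nlinarith

/-- Levels of two heights. -/
lemma lev_sub (M : ℕ) (r r' : ℝ) (h1 : (9 ^ M : ℝ)⁻¹ ≤ r) (h2 : r ≤ 9 ^ M)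
    (h1' : (9 ^ M : ℝ)⁻¹ ≤ r') (h2' : r' ≤ 9 ^ M) :
    (lev M r : ℝ) - lev M r' ≤ 1 + |Real.log (r / r')| := by
  have h9 : (0 : ℝ) < 9 ^ M := by positivity
  obtain ⟨a1, a2, -, a4⟩ := lev_bounds M r h1 h2
  obtain ⟨b1, b2, -, b4⟩ := lev_bounds M r' h1' h2'
  have hr : 0 < r := lt_of_lt_of_le (by positivity) h1
  have hr' : 0 < r' := lt_of_lt_of_le (by positivity) h1'
  by_cases hle : lev M r ≤ lev M r' + 1
  · have : (lev M r : ℝ) ≤ lev M r' + 1 := by exact_mod_cast hle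
    have := abs_nonneg (Real.log (r / r'))
    linarith
  · push Not at hle
    obtain ⟨d, hd⟩ := Nat.exists_eq_add_of_lt hle
    have hlt : (9 : ℝ) ^ (d + 1) ≤ r / r' := by
      rw [le_div_iff₀ hr']
      have : (9 : ℝ) ^ (d + 1) * (9 ^ M * r') ≤ 9 ^ M * r := by
        calc (9 : ℝ) ^ (d + 1) * (9 ^ M * r') ≤ 9 ^ (d + 1) * 9 ^ (lev M r' + 1) :=
              mul_le_mul_of_nonneg_left b2.le (by positivity)
          _ = 9 ^ lev M r := by rw [hd, ← pow_add]; congr 1; omega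
          _ ≤ 9 ^ M * r := a1
      nlinarith
    have hlog := Real.log_le_log (by positivity) hlt
    rw [Real.log_pow] at hlog
    have hd' : (lev M r : ℝ) = lev M r' + 1 + d + 1 := by exact_mod_cast hd
    have := le_abs_self (Real.log (r / r'))
    have h2 := log_nine_ge
    push_cast at hlog
    have hd0 : (0 : ℝ) ≤ d := Nat.cast_nonneg d
    nlinarith

/-- Third property. -/
lemma p3one (hGLI : GLIStmt) (P : ℕ → ℤ) (M : ℕ) (s s' r r' : ℝ) (hs : |s| ≤ 9 ^ M)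
    (hs' : |s'| ≤ 9 ^ M)
    (h1 : (9 ^ M : ℝ)⁻¹ ≤ r) (h2 : r ≤ 9 ^ M) (h1' : (9 ^ M : ℝ)⁻¹ ≤ r') (h2' : r' ≤ 9 ^ M) :
    |gg P (2 * M + 6) (lev M r) (idx M s) - gg P (2 * M + 6) (lev M r') (idx M s')| ≤
      8 + Real.log (1 + |s - s'| / r) + |Real.log (r / r')| := by
  have h9 : (0 : ℝ) < 9 ^ M := by positivity
  obtain ⟨a1, a2, a3, a4⟩ := lev_bounds M r h1 h2
  obtain ⟨b1, b2, b3, b4⟩ := lev_bounds M r' h1' h2'
  have hr : 0 < r := lt_of_lt_of_le (by positivity) h1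
  have hr' : 0 < r' := lt_of_lt_of_le (by positivity) h1'
  obtain ⟨d1, -⟩ := idx_diff M s s' hs hs'
  have hl1 := lev_sub M r r' h1 h2 h1' h2'
  have hl2 := lev_sub M r' r h1' h2' h1 h2
  have hinv : |Real.log (r' / r)| = |Real.log (r / r')| := by
    rw [← inv_div, Real.log_inv, abs_neg]
  rw [hinv] at hl2
  set i := idx M s with hi
  set j := idx M s' with hj
  set l := lev M r with hl
  set l' := lev M r' with hl'
  -- the part of the levels
  have hlev : |gg P (2 * M + 6) l j - gg P (2 * M + 6) l' j| ≤ 1 + |Real.log (r / r')| := by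
    rcases le_total l l' with hle | hle
    · have := hGLI.1 P (2 * M + 6) l l' j hle (by omega)
      linarith
    · have := hGLI.1 P (2 * M + 6) l' l j hle (by omega)
      rw [abs_sub_comm]
      linarith
  -- the part of the times
  obtain ⟨n, hn1, hn2⟩ : ∃ n : ℕ, l ≤ n ∧ |(i : ℝ) - j| ≤ 9 ^ n ∧
      2 * ((n : ℝ) - l) ≤ 4 + Real.log (1 + |s - s'| / r) := by
    have hq : (1 : ℝ) ≤ 1 + |s - s'| / r := by
      have := div_nonneg (abs_nonneg (s - s')) hr.le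
      linarith
    obtain ⟨n, hn⟩ := exists_nat_pow_near hq (by norm_num : (1 : ℝ) < 9)
    refine ⟨l + n + 2, by omega, ?_, ?_⟩
    · have e : |(i : ℝ) - j| ≤ 9 ^ M * r * (1 + |s - s'| / r) := by
        have : 9 ^ M * r * (1 + |s - s'| / r) = 9 ^ M * r + 9 ^ M * |s - s'| := by
          field_simp
        rw [this]; linarith
      refine e.trans ?_
      have : (9 : ℝ) ^ (l + n + 2) = 9 ^ (l + 1) * 9 ^ (n + 1) := by
        rw [← pow_add]; congr 1; omega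
      rw [this]
      exact mul_le_mul a2.le hn.2.le (by linarith) (by positivity)
    · have hlog := Real.log_le_log (by positivity) hn.1
      rw [Real.log_pow] at hlog
      have := log_nine_ge
      have hn0 : (0 : ℝ) ≤ n := Nat.cast_nonneg n
      push_cast
      nlinarith
  have h3 := hGLI.2 P (2 * M + 6) l n i j hn1 hn2.1
  calc |gg P (2 * M + 6) l i - gg P (2 * M + 6) l' j|
      = |(gg P (2 * M + 6) l i - gg P (2 * M + 6) l j) +
          (gg P (2 * M + 6) l j - gg P (2 * M + 6) l' j)| := by congr 1; ring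
    _ ≤ |gg P (2 * M + 6) l i - gg P (2 * M + 6) l j| +
          |gg P (2 * M + 6) l j - gg P (2 * M + 6) l' j| := abs_add_le _ _
    _ ≤ 8 + Real.log (1 + |s - s'| / r) + |Real.log (r / r')| := by linarith [hn2.2]

lemma p3 (hGLI : GLIStmt) (M : ℕ) (s s' r r' : ℝ) (hs : |s| ≤ 9 ^ M) (hs' : |s'| ≤ 9 ^ M)
    (h1 : (9 ^ M : ℝ)⁻¹ ≤ r) (h2 : r ≤ 9 ^ M) (h1' : (9 ^ M : ℝ)⁻¹ ≤ r') (h2' : r' ≤ 9 ^ M) :
    ‖gf M s r - gf M s' r'‖ ≤
      16 * (1 + |Real.log (r / r')| + Real.log (1 + |s - s'| / r)) := by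
  have hr : 0 < r := lt_of_lt_of_le (by positivity) h1
  have hx := p3one hGLI X M s s' r r' hs hs' h1 h2 h1' h2'
  have hy := p3one hGLI Y M s s' r r' hs hs' h1 h2 h1' h2'
  have hlog : 0 ≤ Real.log (1 + |s - s'| / r) := Real.log_nonneg (by
    have := div_nonneg (abs_nonneg (s - s')) hr.le
    linarith)
  have habs := abs_nonneg (Real.log (r / r'))
  refine (norm_le_re_im _).trans ?_
  have e1 : (gf M s r - gf M s' r').re = gg X (2 * M + 6) (lev M r) (idx M s) -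
      gg X (2 * M + 6) (lev M r') (idx M s') := by simp [gf]
  have e2 : (gf M s r - gf M s' r').im = gg Y (2 * M + 6) (lev M r) (idx M s) -
      gg Y (2 * M + 6) (lev M r') (idx M s') := by simp [gf]
  rw [e1, e2]
  linarith

/-- `X` and `cx` differ by at most one. -/
lemma X_near (hSGN : ∀ i, sx i = 1 ∨ sx i = -1) (i j : ℕ) : |X i - X j| ≤ |cx i - cx j| + 1 := by
  have e : ∀ i, X i = cx i ∨ X i = cx i - 1 := by
    intro i
    rcases hSGN i with h | h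
    · left; simp [X, h]
    · right; simp [X, h]; ring
  rcases e i with h | h <;> rcases e j with h' | h' <;> rw [h, h'] <;> rw [abs_le] <;>
    have := neg_abs_le (cx i - cx j) <;> have := le_abs_self (cx i - cx j) <;>
    constructor <;> linarith

lemma Y_near (hSGN : ∀ i, sy i = 1 ∨ sy i = -1) (i j : ℕ) : |Y i - Y j| ≤ |cy i - cy j| + 1 := by
  have e : ∀ i, Y i = cy i ∨ Y i = cy i - 1 := by
    intro i
    rcases hSGN i with h | h
    · left; simp [Y, h]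
    · right; simp [Y, h]; ring
  rcases e i with h | h <;> rcases e j with h' | h' <;> rw [h, h'] <;> rw [abs_le] <;>
    have := neg_abs_le (cy i - cy j) <;> have := le_abs_self (cy i - cy j) <;>
    constructor <;> linarith

/-- Fourth property. -/
lemma p4 (hSGN : SGNStmt) (hGLI : GLIStmt) (hSEP : SEPStmt) (M : ℕ) (s s' r : ℝ)
    (hs : |s| ≤ 9 ^ M) (hs' : |s'| ≤ 9 ^ M) (h1 : (9 ^ M : ℝ)⁻¹ ≤ r) (h2 : r ≤ 9 ^ M)
    (hh1 : ‖hh M s - hh M s'‖ ^ 2 ≤ r) :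
    |s - s'| ≤ (18 * 9 ^ 40) * r * Real.exp ((18 * 9 ^ 40) * ‖gf M s r - gf M s' r‖) := by
  have h9 : (0 : ℝ) < 9 ^ M := by positivity
  obtain ⟨a1, a2, a3, a4⟩ := lev_bounds M r h1 h2
  have hr : 0 < r := lt_of_lt_of_le (by positivity) h1
  obtain ⟨-, d2⟩ := idx_diff M s s' hs hs'
  have hg0 : 0 ≤ ‖gf M s r - gf M s' r‖ := norm_nonneg _
  by_cases hsm : |s - s'| ≤ 2 * r
  · have he : (1 : ℝ) ≤ Real.exp ((18 * 9 ^ 40) * ‖gf M s r - gf M s' r‖) :=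
      Real.one_le_exp (by positivity)
    calc |s - s'| ≤ 2 * r := hsm
      _ ≤ (18 * 9 ^ 40) * r * 1 := by nlinarith
      _ ≤ _ := mul_le_mul_of_nonneg_left he (by positivity)
  · push Not at hsm
    have e1 : (gf M s r - gf M s' r).re = gg X (2 * M + 6) (lev M r) (idx M s) -
        gg X (2 * M + 6) (lev M r) (idx M s') := by simp [gf]
    have e2 : (gf M s r - gf M s' r).im = gg Y (2 * M + 6) (lev M r) (idx M s) -
        gg Y (2 * M + 6) (lev M r) (idx M s') := by simp [gf]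
    have g1 := Complex.abs_re_le_norm (gf M s r - gf M s' r)
    have g2 := Complex.abs_im_le_norm (gf M s r - gf M s' r)
    rw [e1] at g1
    rw [e2] at g2
    rw [hh_sub, div_le_iff₀ h9] at hh1
    have hiK := (idx_bounds M s hs).2.2
    have hjK := (idx_bounds M s' hs').2.2
    set i := idx M s with hi
    set j := idx M s' with hj
    set l := lev M r with hl
    have hbig : 9 ^ M * |s - s'| ≤ 2 * |(i : ℝ) - j| := by nlinarith
    have hbig1 : (1 : ℝ) ≤ |(i : ℝ) - j| := by nlinarith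
    -- squares
    have e9 : (9 : ℝ) ^ (l + 1) = 3 ^ (l + 1) * 3 ^ (l + 1) := by rw [← mul_pow]; norm_num
    have hc1 : |(cx i : ℝ) - cx j| ≤ 3 ^ (l + 1) := by
      apply abs_le_of_sq_le_sq _ (by positivity)
      nlinarith [sq_nonneg ((cy i : ℝ) - cy j)]
    have hc2 : |(cy i : ℝ) - cy j| ≤ 3 ^ (l + 1) := by
      apply abs_le_of_sq_le_sq _ (by positivity)
      nlinarith [sq_nonneg ((cx i : ℝ) - cx j)]
    have hc1' : |cx i - cx j| ≤ 3 ^ (l + 1) := by exact_mod_cast hc1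
    have hc2' : |cy i - cy j| ≤ 3 ^ (l + 1) := by exact_mod_cast hc2
    have h3 : (1 : ℤ) ≤ 3 ^ (l + 1) := one_le_pow₀ (by norm_num)
    have hX : |X i - X j| ≤ 3 ^ (l + 2) := by
      have := X_near hSGN.1 i j
      have e : (3 : ℤ) ^ (l + 2) = 3 * 3 ^ (l + 1) := by ring
      linarith
    have hY : |Y i - Y j| ≤ 3 ^ (l + 2) := by
      have := Y_near hSGN.2.1 i j
      have e : (3 : ℤ) ^ (l + 2) = 3 * 3 ^ (l + 1) := by ring
      linarith
    -- the power m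
    obtain ⟨m, hm⟩ := exists_nat_pow_near hbig1 (by norm_num : (1 : ℝ) < 9)
    have hm1 : (9 : ℤ) ^ m ≤ |(i : ℤ) - j| := by exact_mod_cast hm.1
    have hK : i / 9 ^ (2 * M + 6) = j / 9 ^ (2 * M + 6) := by
      rw [Nat.div_eq_of_lt hiK, Nat.div_eq_of_lt hjK]
    have hsep := hSEP (2 * M + 6) (l + 2) m i j hK hm1 hX hY
    have t1 := hGLI.1 X (2 * M + 6) l (l + 2) i (by omega) (by omega)
    have t2 := hGLI.1 X (2 * M + 6) l (l + 2) j (by omega) (by omega)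
    have t3 := hGLI.1 Y (2 * M + 6) l (l + 2) i (by omega) (by omega)
    have t4 := hGLI.1 Y (2 * M + 6) l (l + 2) j (by omega) (by omega)
    push_cast at hsep t1 t2 t3 t4
    have u1 : |gg X (2 * M + 6) (l + 2) i - gg X (2 * M + 6) (l + 2) j| ≤
        ‖gf M s r - gf M s' r‖ + 4 := by
      have b1 := abs_le.mp t1
      have b2 := abs_le.mp t2
      have b3 := abs_le.mp g1
      rw [abs_le]
      constructor <;> linarith [b1.1, b1.2, b2.1, b2.2, b3.1, b3.2]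
    have u2 : |gg Y (2 * M + 6) (l + 2) i - gg Y (2 * M + 6) (l + 2) j| ≤
        ‖gf M s r - gf M s' r‖ + 4 := by
      have b1 := abs_le.mp t3
      have b2 := abs_le.mp t4
      have b3 := abs_le.mp g2
      rw [abs_le]
      constructor <;> linarith [b1.1, b1.2, b2.1, b2.2, b3.1, b3.2]
    have hml : (m : ℝ) ≤ l + 40 + 2 * ‖gf M s r - gf M s' r‖ := by
      have := max_le u1 u2
      linarith
    -- conclusion
    have hlog3 : Real.log 9 ≤ 8 := by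
      have := Real.log_le_sub_one_of_pos (by norm_num : (0 : ℝ) < 9)
      linarith
    have hpow : (9 : ℝ) ^ m ≤ 9 ^ l * 9 ^ 40 * Real.exp ((18 * 9 ^ 40) * ‖gf M s r - gf M s' r‖) := by
      have c1 : (9 : ℝ) ^ m = Real.exp (m * Real.log 9) := by
        rw [Real.exp_nat_mul, Real.exp_log (by norm_num)]
      have c2 : (9 : ℝ) ^ l = Real.exp (l * Real.log 9) := by
        rw [Real.exp_nat_mul, Real.exp_log (by norm_num)]
      have c3 : (9 : ℝ) ^ 40 = Real.exp (((40 : ℕ) : ℝ) * Real.log 9) := by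
        rw [Real.exp_nat_mul, Real.exp_log (by norm_num)]
      have c4 : (16 : ℝ) * ‖gf M s r - gf M s' r‖ ≤ (18 * 9 ^ 40) * ‖gf M s r - gf M s' r‖ :=
        mul_le_mul_of_nonneg_right (by norm_num) hg0
      have hL0 : 0 ≤ Real.log 9 := by linarith [log_nine_ge]
      have c5 : (m : ℝ) * Real.log 9 ≤ l * Real.log 9 + ((40 : ℕ) : ℝ) * Real.log 9 +
          (18 * 9 ^ 40) * ‖gf M s r - gf M s' r‖ := by
        have d1 := mul_le_mul_of_nonneg_right hml hL0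
        have d2 := mul_le_mul_of_nonneg_left hlog3 (by linarith : 0 ≤ 2 * ‖gf M s r - gf M s' r‖)
        have d3 : ((l : ℝ) + 40 + 2 * ‖gf M s r - gf M s' r‖) * Real.log 9 =
            l * Real.log 9 + ((40 : ℕ) : ℝ) * Real.log 9 +
              2 * ‖gf M s r - gf M s' r‖ * Real.log 9 := by push_cast; ring
        rw [d3] at d1
        linarith
      calc (9 : ℝ) ^ m = Real.exp (m * Real.log 9) := c1
        _ ≤ Real.exp (l * Real.log 9 + ((40 : ℕ) : ℝ) * Real.log 9 +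
          (18 * 9 ^ 40) * ‖gf M s r - gf M s' r‖) := Real.exp_le_exp.mpr c5
        _ = 9 ^ l * 9 ^ 40 * Real.exp ((18 * 9 ^ 40) * ‖gf M s r - gf M s' r‖) := by
          rw [Real.exp_add, Real.exp_add, ← c2, ← c3]
    have hfin : 9 ^ M * |s - s'| ≤ 9 ^ M * ((18 * 9 ^ 40) * r *
        Real.exp ((18 * 9 ^ 40) * ‖gf M s r - gf M s' r‖)) := by
      set E := Real.exp ((18 * 9 ^ 40) * ‖gf M s r - gf M s' r‖) with hE
      have hE0 : 0 < E := Real.exp_pos _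
      calc 9 ^ M * |s - s'| ≤ 2 * |(i : ℝ) - j| := hbig
        _ ≤ 2 * 9 ^ (m + 1) := by linarith [hm.2]
        _ = 18 * 9 ^ m := by ring
        _ ≤ 18 * (9 ^ l * 9 ^ 40 * E) := by linarith
        _ = (18 * 9 ^ 40 * E) * 9 ^ l := by ring
        _ ≤ (18 * 9 ^ 40 * E) * (9 ^ M * r) := mul_le_mul_of_nonneg_left a1 (by positivity)
        _ = _ := by ring
    exact le_of_mul_le_mul_left hfin h9

theorem reg (hSGN : SGNStmt) (hHOL : HOLStmt) (hGLI : GLIStmt) (hSEP : SEPStmt) : REGRow := by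
  refine ⟨18 * 9 ^ 40, by norm_num, fun M => ⟨hh M, TT M, gf M, hh_zero M, TT_zero M, gf_zero M, ?_⟩⟩
  intro s s' r r' hs hs' h1 h2 h1' h2'
  have hr : 0 < r := lt_of_lt_of_le (by positivity) h1
  obtain ⟨q1, q2⟩ := p12 hHOL M s s' r hs hs' h1 h2
  have q3 := p3 hGLI M s s' r r' hs hs' h1 h2 h1' h2'
  have hnn : 0 ≤ |s - s'| + r := by have := abs_nonneg (s - s'); linarith
  have hlog : 0 ≤ Real.log (1 + |s - s'| / r) := Real.log_nonneg (by
    have := div_nonneg (abs_nonneg (s - s')) hr.le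
    linarith)
  have habs := abs_nonneg (Real.log (r / r'))
  refine ⟨q1.trans ?_, q2.trans ?_, q3.trans ?_, ?_⟩
  · exact mul_le_mul_of_nonneg_right (by norm_num) hnn
  · exact mul_le_mul_of_nonneg_right (by norm_num) hnn
  · exact mul_le_mul_of_nonneg_right (by norm_num) (by linarith)
  · intro hx
    exact p4 hSGN hGLI hSEP M s s' r hs hs' h1 h2 hx

end Pool.Agent.QEP.H92
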